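import Pool.Agent.Results.MP_f61260_nt.MixedRadicalFields
import Pool.Agent.Results.MP_f61260_nt.RealRadicalFields
import Pool.Agent.W469.CV.MH
import Pool.Agent.R976.MP.Mahler
import Pool.Agent.Run7.h361.Dens
import Pool.Agent.Run7.h283.LR.Pure

/-!
# Lehmer's conjecture for the polynomials with a zero in the field generated by the roots `2^(1/n)`,
`n` composed of a positive proportion of the primes, and by the roots of unity of order coprime to
these primes

For every set `P` of primes `p` with `p² ∤ 2^(p-1) - 1`, for example for all of them, and for every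
set `S` of odd primes disjoint from `P` let `L = L(P, S)` be the field generated over `ℚ` by compatible
roots `2^(1/n)` for all `n` composed of primes in `P`, and by all roots of unity of order composed of
primes in `S`. We show that every irreducible integer polynomial `f` with a zero in `L` has Mahler
measure `1` or at least `min (2, exp (c deg f))`, with an absolute constant `c > 0`. The set of the
primes with `p² ∤ 2^(p-1) - 1` has positive lower density (`Pool.Agent.Run7.h361.density`).

All fields are subfields of `AlgebraicClosure ℚ`.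
-/

set_option autoImplicit false

namespace Pool.Agent.Results.MP_7ab245_nt.RadicalsPositiveDensity

open Polynomial

/-- the primes `p` with `p² ∤ 2^(p-1) - 1` -/
def W : Set ℕ := {p | p.Prime ∧ ¬ p ^ 2 ∣ 2 ^ (p - 1) - 1}

/-- `r n` is a compatible choice of `2^(1/n)`, for all `n` -/
def IsRootSystem (r : ℕ → AlgebraicClosure ℚ) : Prop :=
  r 1 = 2 ∧ ∀ m n : ℕ, 0 < m → 0 < n → r (m * n) ^ m = r n

/-- the positive integers all of whose prime factors belong to `P` -/
def Composed (P : Set ℕ) : Set ℕ := {n | 0 < n ∧ ∀ p : ℕ, p.Prime → p ∣ n → p ∈ P}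

/-- the field generated by the roots `2^(1/n)`, `n` composed of primes in `P`, and by the roots of
unity of order composed of primes in `S` -/
noncomputable def field (P S : Set ℕ) (r : ℕ → AlgebraicClosure ℚ) :
    IntermediateField ℚ (AlgebraicClosure ℚ) :=
  IntermediateField.adjoin ℚ ({y | ∃ n ∈ Composed P, y = r n} ∪ {y | ∃ m ∈ Composed S, y ^ m = 1})

/-- `β` lies in one of the fields -/
def InField (β : AlgebraicClosure ℚ) : Prop :=
  ∃ P S : Set ℕ, P ⊆ W ∧ Disjoint P S ∧ 2 ∉ S ∧ ∃ r, IsRootSystem r ∧ β ∈ field P S r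

/-- `β` lies in one of the fields without roots of unity -/
def InRealField (β : AlgebraicClosure ℚ) : Prop :=
  ∃ r, IsRootSystem r ∧ β ∈ field W ∅ r

/-- the Mahler measure of an integer polynomial -/
noncomputable def M (f : ℤ[X]) : ℝ := (f.map (Int.castRingHom ℂ)).mahlerMeasure

lemma not_wief {p : ℕ} (hp : p ∈ W) :
    ¬ Pool.Agent.Results.MP_f61260_nt.MixedRadicalFields.IsWieferich 2 p := by
  rintro ⟨-, -, h⟩
  apply hp.2
  have h1 : (1 : ℕ) ≤ 2 ^ (p - 1) := Nat.one_le_two_pow
  have h2 : (((2 ^ (p - 1) - 1 : ℕ)) : ℤ) = ((2 : ℕ) : ℤ) ^ (p - 1) - 1 := by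
    rw [Nat.cast_sub h1]
    push_cast
    rfl
  rw [← h2] at h
  exact_mod_cast h

lemma few {P : Set ℕ} (hP : P ⊆ W) :
    Pool.Agent.Results.MP_f61260_nt.MixedRadicalFields.FewWieferich 2 P := by
  intro F hF
  have hF0 : F = ∅ := by
    rw [Finset.eq_empty_iff_forall_notMem]
    intro p hp
    exact not_wief (hP (hF p hp).1) (hF p hp).2
  rw [hF0]
  refine ⟨Finset.notMem_empty 2, ?_⟩
  rw [Finset.sum_empty]
  positivity

lemma mem_exponents {P : Set ℕ} (hP : P ⊆ W) {n : ℕ} (hn : n ∈ Composed P) :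
    n ∈ Pool.Agent.Results.MP_f61260_nt.MixedRadicalFields.Exponents 2 P :=
  ⟨hn.1, fun p hp h => ⟨hn.2 p hp h, fun hw => absurd hw (not_wief (hP (hn.2 p hp h)))⟩⟩

lemma squarefree_two : Squarefree 2 := Nat.prime_two.prime.squarefree

/-- an element of the group generated by `2` -/
lemma mem_group {a : Fin 1 → ℕ} (ha : a = fun _ => 2) {g : (AlgebraicClosure ℚ)ˣ}
    (hg : g ∈ Pool.Agent.Results.MP_f61260_nt.MixedRadicalFields.group a) :
    ∃ k : ℤ, (g : AlgebraicClosure ℚ) = 2 ^ k := by
  unfold Pool.Agent.Results.MP_f61260_nt.MixedRadicalFields.group at hg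
  induction hg using Subgroup.closure_induction with
  | mem x hx =>
    obtain ⟨i, hi⟩ := hx
    refine ⟨1, ?_⟩
    rw [hi, ha, zpow_one]
    norm_num
  | one => exact ⟨0, by rw [zpow_zero, Units.val_one]⟩
  | mul x y _ _ hx hy =>
    obtain ⟨k, hk⟩ := hx
    obtain ⟨l, hl⟩ := hy
    exact ⟨k + l, by rw [Units.val_mul, hk, hl, zpow_add₀ (by norm_num)]⟩
  | inv x _ hx =>
    obtain ⟨k, hk⟩ := hx
    exact ⟨-k, by rw [Units.val_inv_eq_inv_val, hk, zpow_neg]⟩

/-- the elements of the division group -/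
lemma mahler_div {β : AlgebraicClosure ℚ} {f : ℤ[X]} (hf : Irreducible f) (hβ : aeval β f = 0)
    {n : ℕ} (hn : 0 < n) {k : ℤ} (h : β ^ n = 2 ^ k) : M f = 1 ∨ 2 ≤ M f := by
  have h2 : (2 : AlgebraicClosure ℚ) ≠ 0 := by norm_num
  rcases lt_trichotomy k 0 with hk | hk | hk
  · right
    refine Run7.h283.LR.mahler_pure hf hβ (n := n) (a := (-k).toNat) (b := 0) hn ?_ (by omega)
    rw [h, pow_zero, ← zpow_natCast, ← zpow_add₀ h2]
    have : ((-k).toNat : ℤ) + k = 0 := by omega
    rw [this, zpow_zero]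
  · left
    rw [hk, zpow_zero] at h
    exact Pool.Agent.R976.MP.mahler_cyc hf hβ hn h
  · right
    refine Run7.h283.LR.mahler_pure hf hβ (n := n) (a := 0) (b := k.toNat) hn ?_ (by omega)
    rw [h, pow_zero, one_mul, ← zpow_natCast]
    have : ((k).toNat : ℤ) = k := by omega
    rw [this]

lemma height_le {β : AlgebraicClosure ℚ} {f : ℤ[X]} (hf : Irreducible f) (hd : 0 < f.natDegree)
    (hβ : aeval β f = 0) : f.natDegree * NumberField.absLogHeight₁ β ≤ Real.log (M f) := by
  have h1 := (Pool.Agent.W70.LD.ht_le_hM β).trans (Pool.Agent.W469.CV.MH.hM_le β f hf hd hβ)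
  rw [Pool.Agent.H58P.absLogHeight₁_eq]
  have hdR : (0 : ℝ) < f.natDegree := by exact_mod_cast hd
  rw [le_div_iff₀ hdR] at h1
  rw [mul_comm]
  exact h1

lemma M_pos {f : ℤ[X]} (hf : f ≠ 0) : 1 ≤ M f := by
  unfold M
  exact one_le_mahlerMeasure_of_ne_zero hf

lemma natDegree_pos {β : AlgebraicClosure ℚ} {f : ℤ[X]} (hf : Irreducible f)
    (hβ : aeval β f = 0) : 0 < f.natDegree := by
  rcases Nat.eq_zero_or_pos f.natDegree with h0 | h0
  · exfalso
    rw [natDegree_eq_zero] at h0
    obtain ⟨n, rfl⟩ := h0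
    rw [aeval_C] at hβ
    have h2 : n = 0 := by simpa using hβ
    rw [h2, map_zero] at hf
    exact not_irreducible_zero hf
  · exact h0

lemma exp_le {β : AlgebraicClosure ℚ} {f : ℤ[X]} (hf : Irreducible f) (hβ : aeval β f = 0)
    {c : ℝ} (h : c ≤ NumberField.absLogHeight₁ β) : Real.exp (c * f.natDegree) ≤ M f := by
  have h1 := height_le hf (natDegree_pos hf hβ) hβ
  have hM := M_pos hf.ne_zero
  rw [← Real.le_log_iff_exp_le (by linarith)]
  refine le_trans ?_ h1
  rw [mul_comm]
  exact mul_le_mul_of_nonneg_left h (Nat.cast_nonneg _)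

/-- the main bound -/
lemma main : ∃ c : ℝ, 0 < c ∧ ∀ f : ℤ[X], Irreducible f → ∀ β : AlgebraicClosure ℚ,
    aeval β f = 0 → InField β → M f = 1 ∨ min 2 (Real.exp (c * f.natDegree)) ≤ M f := by
  obtain ⟨c, hc, h⟩ := Pool.Agent.Results.MP_f61260_nt.MixedRadicalFields.result.2
  refine ⟨c / 4000 ^ 1, by positivity, fun f hf β hβ hin => ?_⟩
  obtain ⟨P, S, hP, hPS, hS2, r, hr, hβr⟩ := hin
  by_cases hβ0 : β = 0
  · left
    rw [hβ0] at hβ
    exact Pool.Agent.R976.MP.mahler_zero hf hβ
  obtain ⟨a, ha⟩ : ∃ a : Fin 1 → ℕ, a = fun _ => 2 := ⟨_, rfl⟩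
  obtain ⟨P', hP'⟩ : ∃ P' : Fin 1 → Set ℕ, P' = fun _ => P := ⟨_, rfl⟩
  obtain ⟨ρ, hρ⟩ : ∃ ρ : Fin 1 → ℕ → AlgebraicClosure ℚ, ρ = fun _ => r := ⟨_, rfl⟩
  by_cases hdiv : Pool.Agent.Results.MP_f61260_nt.MixedRadicalFields.InDivisionGroup
      (Pool.Agent.Results.MP_f61260_nt.MixedRadicalFields.group a) β
  · obtain ⟨n, hn, g, hg, hgn⟩ := hdiv
    obtain ⟨k, hk⟩ := mem_group ha hg
    rcases mahler_div hf hβ hn (hgn.trans hk) with h1 | h1
    · exact Or.inl h1
    · exact Or.inr ((min_le_left _ _).trans h1)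
  · right
    refine (min_le_right _ _).trans (exp_le hf hβ ?_)
    refine h 1 a P' ρ ?_ S ?_ β ?_ hβ0 hdiv
    · refine ⟨fun i => ?_, fun i j hij => absurd (Subsingleton.elim i j) hij⟩
      rw [ha, hP', hρ]
      refine ⟨squarefree_two, le_rfl, few hP, ?_, hr.2⟩
      show r 1 = ((2 : ℕ) : AlgebraicClosure ℚ)
      rw [hr.1]
      norm_num
    · intro i
      rw [ha, hP', Set.disjoint_left]
      rintro p hpS ⟨hp, h1 | h1⟩
      · exact Set.disjoint_left.1 hPS h1 hpS
      · rw [(Nat.prime_dvd_prime_iff_eq hp Nat.prime_two).1 h1] at hpS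
        exact hS2 hpS
    · refine (?_ : field P S r ≤ _) hβr
      unfold field
      rw [IntermediateField.adjoin_le_iff]
      rintro y (⟨n, hn, rfl⟩ | ⟨m, hm, hy⟩)
      · refine (le_sup_right : _ ≤ Pool.Agent.Results.MP_f61260_nt.MixedRadicalFields.radicalField
          (Pool.Agent.Results.MP_f61260_nt.MixedRadicalFields.cyclotomicField S) a P' ρ) ?_
        refine IntermediateField.subset_adjoin _ _ ⟨0, n, ?_, ?_⟩
        · rw [ha, hP']
          exact mem_exponents hP hn
        · rw [hρ]
      · refine (le_sup_left : _ ≤ Pool.Agent.Results.MP_f61260_nt.MixedRadicalFields.radicalField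
          (Pool.Agent.Results.MP_f61260_nt.MixedRadicalFields.cyclotomicField S) a P' ρ) ?_
        exact IntermediateField.subset_adjoin _ _ ⟨m, hm, hy⟩

/-- the explicit bound without roots of unity -/
lemma main_real (f : ℤ[X]) (hf : Irreducible f) (β : AlgebraicClosure ℚ) (hβ : aeval β f = 0)
    (hin : InRealField β) : M f = 1 ∨ min 2 (Real.exp (f.natDegree / 4000)) ≤ M f := by
  obtain ⟨r, hr, hβr⟩ := hin
  by_cases hβ0 : β = 0
  · left
    rw [hβ0] at hβ
    exact Pool.Agent.R976.MP.mahler_zero hf hβ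
  have hr' : Pool.Agent.Results.MP_f61260_nt.RealRadicalFields.IsRootSystem 2 r :=
    ⟨by rw [hr.1]; norm_num, hr.2⟩
  by_cases hdiv : Pool.Agent.Results.MP_f61260_nt.RealRadicalFields.InDivisionGroup 2 β
  · obtain ⟨n, hn, k, hk⟩ := hdiv
    have hk' : β ^ n = 2 ^ k := by
      rw [hk]
      norm_num
    rcases mahler_div hf hβ hn hk' with h1 | h1
    · exact Or.inl h1
    · exact Or.inr ((min_le_left _ _).trans h1)
  · right
    refine (min_le_right _ _).trans ?_
    have h1 := Pool.Agent.Results.MP_f61260_nt.RealRadicalFields.result 2 squarefree_two le_rfl W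
      (few le_rfl) r hr' β ?_ hβ0 hdiv
    · have h2 := exp_le hf hβ h1
      refine le_trans (le_of_eq ?_) h2
      congr 1
      ring
    · refine (?_ : field W ∅ r ≤ _) hβr
      unfold field
      rw [IntermediateField.adjoin_le_iff]
      rintro y (⟨n, hn, rfl⟩ | ⟨m, hm, hy⟩)
      · exact IntermediateField.subset_adjoin _ _ ⟨n, mem_exponents le_rfl hn, rfl⟩
      · have hm1 : m = 1 := by
          by_contra hcon
          obtain ⟨p, hp, hpm⟩ := Nat.exists_prime_and_dvd hcon
          exact hm.2 p hp hpm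
        rw [hm1, pow_one] at hy
        rw [hy]
        exact one_mem _

/-- **Lehmer's conjecture for the polynomials with a zero in a field generated by roots `2^(1/n)`,
`n` composed of a positive proportion of the primes, and by roots of unity.**
(1) For all large `x` at least `x / (50 log x)` primes `p ≤ x` belong to the set `W` of the primes with
`p² ∤ 2^(p-1) - 1`.
(2) There is an absolute constant `c > 0` such that every irreducible `f ∈ ℤ[X]` with a zero in one
of the fields `L = ℚ(2^(1/n), ζ_m : n composed of primes in P, m composed of primes in S)`, where `P`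
is a subset of `W` and `S` is a set of odd primes disjoint from `P`, has `M(f) = 1` or
`M(f) ≥ min (2, exp (c deg f))`.
(3) Every irreducible `f ∈ ℤ[X]` with a zero in the field `ℚ(2^(1/n) : n composed of primes in W)` has
`M(f) = 1` or `M(f) ≥ min (2, exp (deg f / 4000))`.
(4) There is `μ > 1` such that `M(f) ≥ μ` for all `f ∈ ℤ[X]` with `M(f) > 1` each of whose irreducible
factors of positive degree has a zero in one of the fields `L` of (2). -/
theorem result :
    (∃ x₀ : ℕ, ∀ x : ℕ, x₀ ≤ x →
      (x : ℝ) / (50 * Real.log x) ≤ ({p : ℕ | p ≤ x ∧ p ∈ W}.ncard : ℝ)) ∧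
    (∃ c : ℝ, 0 < c ∧ ∀ f : ℤ[X], Irreducible f → ∀ β : AlgebraicClosure ℚ,
      aeval β f = 0 → InField β → M f = 1 ∨ min 2 (Real.exp (c * f.natDegree)) ≤ M f) ∧
    (∀ f : ℤ[X], Irreducible f → ∀ β : AlgebraicClosure ℚ, aeval β f = 0 → InRealField β →
      M f = 1 ∨ min 2 (Real.exp (f.natDegree / 4000)) ≤ M f) ∧
    (∃ μ : ℝ, 1 < μ ∧ ∀ f : ℤ[X], (∀ g : ℤ[X], Irreducible g → g ∣ f → 0 < g.natDegree →
      ∃ β : AlgebraicClosure ℚ, aeval β g = 0 ∧ InField β) → 1 < M f → μ ≤ M f) := by
  refine ⟨Run7.h361.density, main, main_real, ?_⟩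
  obtain ⟨c, hc, h⟩ := main
  refine ⟨min 2 (Real.exp c), lt_min (by norm_num) (Real.one_lt_exp_iff.2 hc), ?_⟩
  have key : ∀ f : ℤ[X], f ≠ 0 → (∀ g : ℤ[X], Irreducible g → g ∣ f → 0 < g.natDegree →
      ∃ β : AlgebraicClosure ℚ, aeval β g = 0 ∧ InField β) →
      M f = 1 ∨ min 2 (Real.exp c) ≤ M f := by
    intro f
    induction f using WfDvdMonoid.induction_on_irreducible with
    | zero => exact fun h => absurd rfl h
    | unit u hu =>
      intro _ _
      left
      obtain ⟨v, hv, rfl⟩ := Polynomial.isUnit_iff.1 hu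
      unfold M
      rw [Polynomial.map_C, mahlerMeasure_const]
      rcases Int.isUnit_iff.1 hv with h | h
      · rw [h]; simp
      · rw [h]; simp
    | mul g i hg hi ih =>
      intro _ hfac
      have h1 := ih hg fun k hk hkd => hfac k hk (hkd.trans (dvd_mul_left _ _))
      have e : M (i * g) = M i * M g := by
        unfold M
        rw [Polynomial.map_mul, mahlerMeasure_mul]
      have hi' : M i = 1 ∨ min 2 (Real.exp c) ≤ M i := by
        rcases Nat.eq_zero_or_pos i.natDegree with h0 | h0
        · right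
          refine (min_le_left _ _).trans ?_
          obtain ⟨n, rfl⟩ := natDegree_eq_zero.1 h0
          have hn : n ≠ 0 := by
            rintro rfl
            rw [map_zero] at hi
            exact not_irreducible_zero hi
          have hn1 : ¬ IsUnit n := fun hu => hi.not_isUnit (hu.map C)
          have hn2 : 2 ≤ |n| := by
            have h3 := Int.one_le_abs hn
            have h4 : |n| ≠ 1 := fun h5 => hn1 (Int.isUnit_iff_abs_eq.2 h5)
            omega
          unfold M
          rw [Polynomial.map_C, mahlerMeasure_const, eq_intCast, Complex.norm_intCast]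
          exact_mod_cast hn2
        · obtain ⟨β, hβ, hin⟩ := hfac i hi (dvd_mul_right _ _) h0
          rcases h i hi β hβ hin with h2 | h2
          · exact Or.inl h2
          · right
            refine le_trans ?_ h2
            refine min_le_min le_rfl (Real.exp_le_exp.2 ?_)
            have h3 : (1 : ℝ) ≤ i.natDegree := by exact_mod_cast h0
            nlinarith
      rw [e]
      have hg1 := M_pos hg
      have hi1 := M_pos hi.ne_zero
      rcases hi' with h2 | h2
      · rw [h2, one_mul]
        exact h1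
      · right
        nlinarith
  intro f hf hM
  have hf0 : f ≠ 0 := by
    rintro rfl
    unfold M at hM
    rw [Polynomial.map_zero, mahlerMeasure_zero] at hM
    linarith
  rcases key f hf0 hf with h1 | h1
  · rw [h1] at hM
    exact absurd hM (lt_irrefl _)
  · exact h1

end Pool.Agent.Results.MP_7ab245_nt.RadicalsPositiveDensity
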